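import Pool.Agent.Run7.h527.TP.X
import Pool.Agent.Results.MP_1e27bd_ag.AlmostAllInvariants

/-!
# The hyperbolic analytic subspace conjecture for products of modular curves, for ALL integral invariants near aliquot sums,
# cototients and arithmetic derivatives

As in the starting files `ModularProducts` and `AlmostAllInvariants`, let `S = Y(1)^n`, let `o` be a special point, and
consider the points `z` of `X = ℍ^n` whose coordinates are isogenous (by arbitrary isogenies) to points with the integral
invariants `t_1, …, t_k`. The tuple `t` is not exceptional if every subspace `V` which is rational over `K` for the arithmetic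
structure and contains one of these points `z` contains the tangent space of the Shimura subvariety through `[o]` and `[z]`.

Let `F_1, …, F_k` be functions such as the sum of the proper divisors, the cototient `m - φ(m)`, the arithmetic derivative (with
`p' = 1` for primes and Leibniz' rule), or a positive combination `α m + β f(m)` with `f = σ`, `φ` or the arithmetic
derivative. There is `e > 0` (which depends on `n`, `k` and the bound `D` for the degree of `K` only) such that for `θ ≥ 0`,
`τ ≤ 1` with `k (θ + 1 - τ) < e` the following is true. For all `(m_1, …, m_k) ∈ {1, …, N}^k` whose entries have two prime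
factors `p ≠ q`, not dividing `m_i / (p q) ≥ 2`, with `p q ≥ m_i^τ`, but `N^(k - η)` of them, NO tuple of nonzero integers `t_i`
with `||t_i| - F_i(m_i)| ≤ F_i(m_i)^θ` is exceptional. The numbers `η` and `N_0` do not depend on `o`, the numbers `c` and `K`,
and there is no bound for the height of `V`.

Proof. Write `m = j p q`. Then `F(m) = a p q + b (p + q) + c` with integers `a ≠ 0`, `b`, `c` which depend on `j` only, and
`(a p + b) (a q + b) = a F(m) + b² - a c`. So for given `j` every value is taken for at most `N^ε` pairs `p`, `q` (the tool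
`Run7/h527/TP`), and the starting theorem `AlmostAllInvariants` bounds the number of the exceptional tuples of integers in
boxes.
-/

set_option autoImplicit false

namespace Pool.Agent.Results.MP_1e27bd_ag.AliquotSums

open Pool.Agent.Results.MP_1e27bd_ag.ModularProducts
open Pool.Agent.Results.MP_1e27bd_ag.AlmostAllInvariants (Exceptional)
open Run7.h527.TP (Bil Two windows_int aliquot cototient deriv sig comb)

/-- **The hyperbolic analytic subspace conjecture near the values of functions which are bilinear in two large primes.** For all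
`n`, `k ≥ 1`, `D` there is `e > 0` such that for all functions `F_1, …, F_k` of the class `Bil` and all `θ ≥ 0`, `τ ≤ 1` with
`k (θ + 1 - τ) < e` there are `η > 0` and `N_0` such that for all `N ≥ N_0`, all special points `o`, all numbers `c`, all number
fields `K` of degree at most `D`, for all `m ∈ {1, …, N}^k` with `Two τ (m_i)` for all `i` but at most `N^(k - η)` of them, NO
tuple `t` of nonzero integers with `||t_i| - F_i(m_i)| ≤ F_i(m_i)^θ` is exceptional. The sum of the proper divisors, the
cototient, the arithmetic derivative and their positive combinations with the identity are in the class `Bil`. -/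
theorem result (n k D : ℕ) (hk : 1 ≤ k) :
    (∃ e : ℝ, 0 < e ∧ ∀ F : Fin k → ℕ → ℕ, (∀ i, Bil (F i)) → ∀ θ τ : ℝ, 0 ≤ θ → τ ≤ 1 →
      k * (θ + 1 - τ) < e → ∃ η : ℝ, 0 < η ∧ ∃ N₀ : ℕ, ∀ N : ℕ, N₀ ≤ N →
      ∀ o c : Fin n → ℂ, (∀ i, Special (o i)) →
      ∀ K : IntermediateField ℚ ℂ, FiniteDimensional ℚ K → Module.finrank ℚ K ≤ D →
      ({m : Fin k → ℕ | (∀ i, 1 ≤ m i ∧ m i ≤ N ∧ Two τ (m i)) ∧
        ¬ ∀ t : Fin k → ℤ, (∀ i, t i ≠ 0 ∧ |(|(t i : ℝ)|) - F i (m i)| ≤ (F i (m i) : ℝ) ^ θ) →
          ¬ Exceptional (K : Set ℂ) o c t}.ncard : ℝ) ≤ (N : ℝ) ^ ((k : ℝ) - η)) ∧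
    Bil aliquot ∧ Bil cototient ∧ Bil deriv ∧
      (∀ α β : ℤ, (∀ m : ℕ, 2 ≤ m → 0 < α * m + β * sig m) → Bil (comb α β sig)) ∧
      (∀ α β : ℤ, (∀ m : ℕ, 2 ≤ m → 0 < α * m + β * Nat.totient m) → Bil (comb α β Nat.totient)) ∧
      ∀ α β : ℤ, (∀ m : ℕ, 2 ≤ m → 0 < α * m + β * deriv m) → Bil (comb α β deriv) := by
  refine ⟨?_, Run7.h527.TP.examples⟩
  obtain ⟨e, C, he, hC, h⟩ := (Pool.Agent.Results.MP_1e27bd_ag.AlmostAllInvariants.result n k D).2
  refine ⟨min e 1, lt_min he one_pos, fun F hF θ τ hθ hτ hkc => ?_⟩
  obtain ⟨η, hη, N₀, hN₀⟩ := windows_int hk hF hθ hτ hkc hC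
  exact ⟨η, hη, N₀, fun N hN o c ho K hK hKD => hN₀ N hN (Exceptional (K : Set ℂ) o c)
    fun x N' hN' S hS => h o c ho K hK hKD x N' hN' S hS⟩

end Pool.Agent.Results.MP_1e27bd_ag.AliquotSums
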