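import Pool.Agent.Run7.h467.GA.Int
import Pool.Agent.Results.MP_1e27bd_ag.AlmostAllInvariants

/-!
# The hyperbolic analytic subspace conjecture for products of modular curves, at the entries of all good rational approximations

As in `ModularProducts` and `AlmostAllInvariants` let `S = Y(1)^n`, let `o` be a special point, and let `c_i` be the factors
which describe the arithmetic structure on the tangent space at `o`. An integral `k`-tuple `t` is exceptional for a number
field `K` if there are points `v_s` with the invariants `j(v_s) = t_s`, a point `z` of `ℍ^n`, each coordinate of which is isogenous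
(by an arbitrary isogeny) to one of the `v_s`, and a subspace `V` of the tangent space, rational over `K` for the arithmetic
structure, which contains the point `z` in the Harish-Chandra realization but not the tangent space of the Shimura subvariety
through `[o]` and `[z]`. By the first part of `AlmostAllInvariants` this tangent space is rational for both structures and
contains `z`; so Q1 and Q2 hold for all the points `z` and subspaces `V` which belong to tuples `t` which are not exceptional.

Let `α` be a point of `ℝ ^ d`, and let `(p, q)`, `p ∈ ℤ ^ d`, run through its approximations with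
`|α_i - p_i / q| ≤ C q ^ (-1-σ)`; by Dirichlet's theorem there are infinitely many for `σ = 1 / d`, `C = 1`, for every `α`.
We consider ALL tuples `t` of `k ≤ d + 1` nonzero integers, of any sign, which are small linearly independent combinations
`u_s · p + v_s q` of the entries of such an approximation, up to small errors: with coefficients at most `C q ^ η` and errors at
most `C q ^ θ`. For example `t = (q, p_1, ..., p_d)` or `t = (p_1, ..., p_d)`, with errors at most `C`.

Theorem. For all `n`, `k`, `D` there is `e > 0` such that for all special points `o` and all `c` the following holds for all `α`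
but a set of Hausdorff dimension at most `(d + 1 - e + (k (d + 2) - e) η + k θ) / (1 + σ)`: for all number fields `K` of degree
at most `D` and all `C` none of these tuples `t` is exceptional for `K`, for all but finitely many `(p, q)`. For `σ = 1 / d` the
bound is smaller than `d` if `(k (d + 2) - e) η + k θ < e`.

`AlmostAllInvariants` bounds the number of the exceptional tuples in boxes; this does not exclude exceptional tuples near all
directions. The good approximations are a very thin set of vectors; the size of the set of the exceptional `α` is estimated by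
the Hausdorff-Cantelli lemma, after a count of the vectors `(q, p)` for which some independent small forms are near an
exceptional tuple (`Pool.Agent.Run7.h467.GA`).
-/

set_option autoImplicit false

open Filter MeasureTheory

namespace Pool.Agent.Results.MP_1e27bd_ag.GoodApproximations

open ModularProducts (Special)
open AlmostAllInvariants (Exceptional)

/-- The members of the tuple `t` of integers are at distance at most `C q ^ θ` from the values `u_j · p + v_j q` of linearly
independent integral linear forms with coefficients at most `C q ^ η`. -/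
def NearForms {d k : ℕ} (η θ C : ℝ) (p : Fin d → ℤ) (q : ℕ) (t : Fin k → ℤ) : Prop :=
  ∃ (u : Fin k → Fin d → ℤ) (v : Fin k → ℤ),
    (∀ a : Fin k → ℤ, (∀ i, ∑ j, a j * u j i = 0) → ∑ j, a j * v j = 0 → a = 0) ∧
    (∀ j i, |(u j i : ℝ)| ≤ C * (q : ℝ) ^ η) ∧ (∀ j, |(v j : ℝ)| ≤ C * (q : ℝ) ^ η) ∧
    ∀ j, |(t j : ℝ) - (∑ i, (u j i : ℝ) * p i + v j * q)| ≤ C * (q : ℝ) ^ θ

/-- For all number fields `K` in `ℂ` of degree at most `D`, all `C` and all but finitely many approximations `(p, q)` of `α` with
`|α_i - p_i / q| ≤ C q ^ (-1-σ)` no `k`-tuple of nonzero integers near independent small forms in `(p, q)` is exceptional. -/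
def Holds {n d : ℕ} (k D : ℕ) (o c : Fin n → ℂ) (σ η θ : ℝ) (α : Fin d → ℝ) : Prop :=
  ∀ K : IntermediateField ℚ ℂ, FiniteDimensional ℚ K → Module.finrank ℚ K ≤ D → ∀ C : ℝ, ∃ Q : ℕ,
    ∀ (p : Fin d → ℤ) (q : ℕ), Q ≤ q → (∀ i, |α i - p i / q| ≤ C / (q : ℝ) ^ (1 + σ)) →
      ∀ t : Fin k → ℤ, (∀ j, t j ≠ 0) → NearForms η θ C p q t → ¬ Exceptional (K : Set ℂ) o c t

/-- there are countably many number fields in `ℂ` -/
lemma countable_fields : Set.Countable {K : IntermediateField ℚ ℂ | FiniteDimensional ℚ K} := by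
  have h0 : Set.Countable {x : ℂ | IsAlgebraic ℚ x} := Algebraic.countable ℚ ℂ
  refine ((Set.countable_ofPred_finite_subset h0).image (fun t : Set ℂ => IntermediateField.adjoin ℚ t)).mono ?_
  intro K hK
  have hK' : FiniteDimensional ℚ K := hK
  have hfg : K.FG := IntermediateField.essFiniteType_iff.1 inferInstance
  obtain ⟨s, hs1, hs2⟩ := IntermediateField.fg_def.1 hfg
  refine ⟨s, ⟨hs1, fun x hx => ?_⟩, hs2⟩
  have h1 : x ∈ K := by rw [← hs2]; exact IntermediateField.subset_adjoin ℚ s hx
  have h2 : IsAlgebraic ℚ (⟨x, h1⟩ : K) := Algebra.IsAlgebraic.isAlgebraic _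
  exact h2.algebraMap

/-- **Theorem.** For all `n`, `k ≥ 1`, `D` there is `e ∈ (0, 1]` such that for all special points `o`, all `c` and all `d`, `σ`,
`η`, `θ` the property `Holds` fails only for a set of points of `ℝ ^ d` of Hausdorff dimension at most
`(d + 1 - e + (k (d + 2) - e) η + k θ) / (1 + σ)`. -/
theorem result (n k D : ℕ) (hk : 1 ≤ k) : ∃ e : ℝ, 0 < e ∧ e ≤ 1 ∧ ∀ o c : Fin n → ℂ, (∀ i, Special (o i)) →
    ∀ (d : ℕ) (σ η θ : ℝ), 0 ≤ σ → 0 ≤ η → 0 ≤ θ → θ ≤ 1 →
      dimH {α : Fin d → ℝ | ¬ Holds k D o c σ η θ α} ≤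
        ENNReal.ofReal ((d + 1 - e + (k * (d + 2) - e) * η + k * θ) / (1 + σ)) := by
  obtain ⟨e, C, he, hC, h⟩ := (AlmostAllInvariants.result n k D).2
  obtain ⟨e', he'⟩ : ∃ e' : ℝ, e' = min e 1 := ⟨_, rfl⟩
  have he0 : 0 < e' := by rw [he']; exact lt_min he one_pos
  have he1 : e' ≤ 1 := by rw [he']; exact min_le_right _ _
  have hee : e' ≤ e := by rw [he']; exact min_le_left _ _
  refine ⟨e', he0, he1, fun o c ho d σ η θ hσ hη hθ hθ1 => ?_⟩
  have hall : ∀ K : {K : IntermediateField ℚ ℂ // FiniteDimensional ℚ K}, ∃ F : Set (Fin d → ℝ),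
      dimH F ≤ ENNReal.ofReal ((d + 1 - e' + (k * (d + 2) - e') * η + k * θ) / (1 + σ)) ∧
      ∀ α : Fin d → ℝ, α ∉ F → Module.finrank ℚ K.1 ≤ D → ∀ C : ℝ, ∃ Q : ℕ, ∀ (p : Fin d → ℤ) (q : ℕ), Q ≤ q →
        (∀ i, |α i - p i / q| ≤ C / (q : ℝ) ^ (1 + σ)) → ∀ t : Fin k → ℤ, (∀ j, t j ≠ 0) → NearForms η θ C p q t →
          ¬ Exceptional (K.1 : Set ℂ) o c t := by
    rintro ⟨K, hK⟩
    by_cases hD : Module.finrank ℚ K ≤ D
    swap
    · exact ⟨∅, by simp, fun α _ h1 => absurd h1 hD⟩
    obtain ⟨F, hF, h1⟩ := Run7.h467.GA.tup_int hk (fun t => Exceptional (K : Set ℂ) o c t) he1 (2 * k * C) (by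
      intro N hN S hS
      have hN1 : (1 : ℝ) ≤ N := by exact_mod_cast hN
      have hN0 : (0 : ℝ) < N := by linarith
      have h2 := h o c ho K hK hD (fun _ => 0) N hN S (fun t ht => by
        obtain ⟨h3, h4⟩ := hS t ht
        refine ⟨fun s => ⟨by simpa using (h3 s).1, ?_⟩, h4⟩
        have h5 := (h3 s).2
        push_cast
        rw [zero_add]
        exact h5)
      refine h2.trans ?_
      have h3 : (1 : ℝ) + N / ((((0 : ℕ) : ℝ) + N) ^ e) ≤ 2 * (N : ℝ) ^ (1 - e') := by
        have h4 : (1 : ℝ) ≤ (N : ℝ) ^ (1 - e') := Real.one_le_rpow hN1 (by linarith)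
        have h5 : (N : ℝ) / ((((0 : ℕ) : ℝ) + N) ^ e) = (N : ℝ) ^ (1 - e) := by
          rw [Nat.cast_zero, zero_add, Real.rpow_sub hN0, Real.rpow_one]
        have h6 : (N : ℝ) ^ (1 - e) ≤ (N : ℝ) ^ (1 - e') := Real.rpow_le_rpow_of_exponent_le hN1 (by linarith)
        rw [h5]
        linarith
      have h7 : ∑ s : Fin k, ((1 : ℝ) + N / (((((fun _ => 0 : Fin k → ℕ) s : ℕ) : ℝ) + N) ^ e)) ≤
          k * (2 * (N : ℝ) ^ (1 - e')) := by
        calc ∑ s : Fin k, ((1 : ℝ) + N / (((((fun _ => 0 : Fin k → ℕ) s : ℕ) : ℝ) + N) ^ e))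
            ≤ ∑ _s : Fin k, 2 * (N : ℝ) ^ (1 - e') := Finset.sum_le_sum fun s _ => h3
          _ = k * (2 * (N : ℝ) ^ (1 - e')) := by
            rw [Finset.sum_const, Finset.card_univ, Fintype.card_fin, nsmul_eq_mul]
      calc C * (N : ℝ) ^ (k - 1) * ∑ s : Fin k, ((1 : ℝ) + N / (((((fun _ => 0 : Fin k → ℕ) s : ℕ) : ℝ) + N) ^ e))
          ≤ C * (N : ℝ) ^ (k - 1) * (k * (2 * (N : ℝ) ^ (1 - e'))) := mul_le_mul_of_nonneg_left h7 (by positivity)
        _ = 2 * k * C * (N : ℝ) ^ ((k : ℝ) - e') := by
          have h8 : (N : ℝ) ^ ((k : ℝ) - e') = (N : ℝ) ^ (k - 1) * (N : ℝ) ^ (1 - e') := by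
            rw [← Real.rpow_natCast, ← Real.rpow_add hN0]
            congr 1
            push_cast [Nat.cast_sub hk]
            ring
          rw [h8]
          ring) d hσ hη hθ hθ1
    exact ⟨F, hF, fun α hα _ => h1 α hα⟩
  choose F hF hF2 using hall
  have hcount : Countable {K : IntermediateField ℚ ℂ // FiniteDimensional ℚ K} := countable_fields.to_subtype
  refine (dimH_mono (t := ⋃ K, F K) ?_).trans ?_
  · intro α hα
    by_contra h1
    exact hα fun K hK hD => hF2 ⟨K, hK⟩ α (fun h2 => h1 (Set.mem_iUnion.2 ⟨_, h2⟩)) hD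
  · rw [dimH_iUnion]
    exact iSup_le hF

end Pool.Agent.Results.MP_1e27bd_ag.GoodApproximations
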