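import Mathlib
import Pool.Agent.Run7.h643.IS.Mod
import Pool.Agent.Results.MP_1e27bd_ag.AlmostAllInvariants

/-!
# The hyperbolic analytic subspace conjecture for products of modular curves: infinite sets of primes

As in the starting file `ModularProducts` (whose definitions are used) let `S = Y(1)^n`, let `o` be a special point of
`ℍ^n`, and let `point o τ`, with coordinates `(τ_i - o_i) / (τ_i - conj o_i)`, be the point `τ` in the Harish-Chandra
realization at `o`. The geometric structure on `T_oX = ℂ^n` is `Qbar^n`; the arithmetic structure consists of the `u` for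
which all `c_i u_i` are algebraic, `c_i = θ_i² / π` with the period `θ_i` of the elliptic curve `[o_i]`. `Tangent o τ` is the
tangent space of the Shimura subvariety through `[o]` and `[τ]` given by the isogenies between the pairs `(o_i, τ_i)`.

Let a point `z_p` of the upper half-plane with invariant `j(z_p) = p` be chosen for every prime number `p`, let
`w_1, …, w_q` be complex numbers (the possible values of the numbers `c_i`), and let `d` be given. We prove that there is an
infinite set `B` of primes, which contains arbitrarily long sequences of consecutive primes, such that for all `n ≤ d`, all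
special points `o` of `ℍ^n` with `c_i` among the `w_b`, and all points `τ` of `ℍ^n` whose coordinates are isogenous (by
arbitrary isogenies) to points `z_p`, `p` in `B`, every subspace `V` of `T_oX` which contains the point and is rational for
the arithmetic structure over some number field of degree at most `d` contains `Tangent o τ`. The latter is rational for
both structures and contains the point, so the answer to Q1 is yes with `V' = Tangent o τ`, the tangent space of a Shimura
subvariety as in Q2. There is no bound for the heights of the coefficients of `V`.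

So the same set `B` works for all `n ≤ d` and all tuples of its elements, as near to each other or far from each other as one
likes; the starting files have all but few integers in one short window (`ModularProducts`) and almost all tuples of
integers in boxes (`AlmostAllInvariants`).

The set `B` is the union of runs of consecutive primes, chosen one after the other; the numbers `z_p`, `j'(z_p)`, `j''(z_p)`
for the primes chosen before are constants in the starting theorem on windows (`Pool.Agent.R351.GD.winZ2_exp`,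
`MP_f58a57_nt.GrowingDegreeWindows`), which allows a bounded number of exceptional integers; they are avoided by the theorem
of Maynard and Tao (`Pool.Agent.H362R2.CM.quarter`). The passage from relations between the `z_p` to subspaces is the one of
the starting files.
-/

set_option autoImplicit false

open scoped ComplexConjugate

namespace Pool.Agent.Results.MP_1e27bd_ag.InfiniteSetsOfPrimes

open Module
open Pool.Agent.Results.MP_1e27bd_ag.ModularProducts (Special Isogenous PairIsogenous point Compatible Qbar Rational Tangent)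
open Pool.Agent.Results.MP_1e27bd_ag.AlmostAllInvariants (im_pos eval_zero lin1 lin1_deg map_deg)

/-- the normalised Eisenstein series of weight `4` -/
noncomputable def E4 (τ : ℂ) : ℂ :=
  1 + 240 * ∑' m : ℕ, ((ArithmeticFunction.sigma 3 (m + 1) : ℕ) : ℂ) *
    Complex.exp (2 * (Real.pi : ℂ) * Complex.I * ((m : ℂ) + 1) * τ)

/-- the normalised Eisenstein series of weight `6` -/
noncomputable def E6 (τ : ℂ) : ℂ :=
  1 - 504 * ∑' m : ℕ, ((ArithmeticFunction.sigma 5 (m + 1) : ℕ) : ℂ) *
    Complex.exp (2 * (Real.pi : ℂ) * Complex.I * ((m : ℂ) + 1) * τ)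

/-- the modular invariant `j = q⁻¹ + 744 + 196884 q + ⋯` -/
noncomputable def J (τ : ℂ) : ℂ := 1728 * E4 τ ^ 3 / (E4 τ ^ 3 - E6 τ ^ 2)

theorem J_eq : J = Pool.Agent.TH21.MS.jj := by
  have h4 : E4 = Pool.Agent.TH21.MS.E4 := funext Pool.Agent.Y120.J.E4_same
  have h6 : E6 = Pool.Agent.TH21.MS.E6 := funext Pool.Agent.Y120.J.E6_same
  funext τ
  unfold J Pool.Agent.TH21.MS.jj
  rw [h4, h6]

theorem jt_zero (x : ℂ) : Pool.Agent.Y120.J.jt x 0 = x := rfl

/-- the set of primes -/
theorem exists_B (z : ℕ → ℂ) (hz : ∀ p : ℕ, p.Prime → 0 < (z p).im ∧ J (z p) = p) (q D : ℕ) (w : Fin q → ℂ) :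
    ∃ B : Set ℕ, (∀ p ∈ B, p.Prime) ∧ (∀ r : ℕ, ∃ k : ℕ, ∀ i < r, Nat.nth Nat.Prime (k + i) ∈ B) ∧
      ∀ K : IntermediateField ℚ ℂ, FiniteDimensional ℚ K → finrank ℚ K ≤ D →
      ∀ P : MvPolynomial (Fin q ⊕ (ℕ × Fin 3)) K, P.totalDegree ≤ D → (∀ v, Sum.inr v ∈ P.vars → v.1 ∈ B) →
        MvPolynomial.aeval (Sum.elim w fun v : ℕ × Fin 3 => Pool.Agent.Y120.J.jt (z v.1) v.2) P = 0 →
        ∀ y : ℕ → Fin 3 → ℂ, MvPolynomial.aeval (Sum.elim w fun v : ℕ × Fin 3 => y v.1 v.2) P = 0 := by
  classical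
  obtain ⟨C, L, M, hM, h⟩ := Pool.Agent.Run7.h643.IS.inf_mod q fun l => l
  have hN : ∀ l, ∃ N, N ∈ M l ∧ (L l + 2) ^ ((D + 2) ^ C l) ≤ N := fun l => by
    obtain ⟨N, h1, h2⟩ := (hM l).exists_gt ((L l + 2) ^ ((D + 2) ^ C l))
    exact ⟨N, h1, h2.le⟩
  choose N hN using hN
  set z' : ℕ → UpperHalfPlane := fun p => if hp : p.Prime then ⟨z p, (hz p hp).1⟩ else UpperHalfPlane.I with hz'
  have hzz : ∀ p : ℕ, p.Prime → ((z' p : UpperHalfPlane) : ℂ) = z p := by
    intro p hp
    rw [hz']
    simp only [dif_pos hp]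
  obtain ⟨k, hk1, hk2⟩ := h N (fun _ => D) hN w z' (fun p hp => by
    rw [hzz p hp, ← J_eq]
    exact (hz p hp).2)
  refine ⟨{p | ∃ l, ∃ i < l, p = Nat.nth Nat.Prime (k l + i)}, ?_, fun r => ⟨k r, fun i hi => ⟨r, i, hi, rfl⟩⟩,
    fun K hK hKD P hP hPv hP0 y => ?_⟩
  · rintro p ⟨l, i, -, rfl⟩
    exact Nat.prime_nth_prime _
  · refine hk2 0 D (fun _ _ => le_rfl) K hK hKD P hP (fun v hv => hPv v hv) ?_ y
      (fun l hl => absurd hl (Nat.not_lt_zero l))
    rw [← hP0]
    refine MvPolynomial.eval₂Hom_congr' rfl ?_ rfl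
    intro v hv _
    rcases v with v | v
    · simp only [Sum.elim_inl]
    · obtain ⟨l, i, hi, h1⟩ := hPv v hv
      simp only [Sum.elim_inr]
      rw [hzz _ (h1 ▸ Nat.prime_nth_prime _)]

/-- **Main theorem.** -/
theorem result :
    (∀ (n : ℕ) (o τ c : Fin n → ℂ), (∀ i, Special (o i)) → (∀ i, 0 < (τ i).im) → (∀ i, c i ≠ 0) → Compatible o c →
      point o τ ∈ Tangent o τ ∧ Rational Qbar c (Tangent o τ) ∧ Rational Qbar (fun _ => 1) (Tangent o τ)) ∧
    ∀ z : ℕ → ℂ, (∀ p : ℕ, p.Prime → 0 < (z p).im ∧ J (z p) = p) → ∀ (q d : ℕ) (w : Fin q → ℂ),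
      ∃ B : Set ℕ, (∀ p ∈ B, p.Prime) ∧ (∀ r : ℕ, ∃ k : ℕ, ∀ i < r, Nat.nth Nat.Prime (k + i) ∈ B) ∧
        ∀ n ≤ d, ∀ (o τ : Fin n → ℂ) (b : Fin n → Fin q), (∀ i, Special (o i)) →
          (∀ i, ∃ p ∈ B, Isogenous (z p) (τ i)) →
          ∀ K : IntermediateField ℚ ℂ, FiniteDimensional ℚ K → finrank ℚ K ≤ d →
          ∀ V : Submodule ℂ (Fin n → ℂ), Rational (K : Set ℂ) (fun i => w (b i)) V → point o τ ∈ V →
            Tangent o τ ≤ V := by
  classical
  refine ⟨fun n => (Pool.Agent.Results.MP_1e27bd_ag.AlmostAllInvariants.result n 0 0).1, fun z hz q d w => ?_⟩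
  obtain ⟨B, hB1, hB2, hB3⟩ := exists_B z hz q (d * 2 ^ d + d + 1) w
  refine ⟨B, hB1, hB2, fun n hn o τ b ho hτ K hK hKd V hV hz' => ?_⟩
  choose p' hp' hiso using hτ
  set T : Finset ℕ := Finset.univ.image p' with hT
  set e : T ≃ Fin T.card := T.equivFin with he
  set κ : Fin n → Fin T.card := fun i => e ⟨p' i, Finset.mem_image_of_mem _ (Finset.mem_univ i)⟩ with hκ
  set p : Fin T.card → ℕ := fun s => (e.symm s : ℕ) with hp
  have hpκ : ∀ i, p (κ i) = p' i := fun i => by
    show ((e.symm (e ⟨p' i, _⟩) : T) : ℕ) = p' i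
    rw [e.symm_apply_apply]
  have hpinj : Function.Injective p := Subtype.val_injective.comp e.symm.injective
  have hpB : ∀ s, p s ∈ B := fun s => by
    obtain ⟨i, -, hi⟩ := Finset.mem_image.1 (e.symm s).2
    show ((e.symm s : T) : ℕ) ∈ B
    rw [← hi]
    exact hp' i
  obtain ⟨L, hL1, hL2, hKL, hoL⟩ := Pool.Agent.N207.HY.exists_field o ho K
  obtain ⟨F, hFK, hF⟩ := hV
  by_contra hnot
  obtain ⟨u, hu, huV⟩ := Set.not_subset.1 hnot
  have huV' : ¬ ∀ a ∈ F, ∑ i, a i * (w (b i) * u i) = 0 := fun hh => huV ((hF u).2 hh)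
  push Not at huV'
  obtain ⟨a, ha, hau⟩ := huV'
  have hza : ∑ i, a i * (w (b i) * point o τ i) = 0 := (hF _).1 hz' a ha
  have haL : ∀ i, a i ∈ L := fun i => hKL (hFK a ha i)
  choose A B' C' D' hdet hτ' using hiso
  set v : Fin T.card → ℂ := fun s => z (p s) with hv
  have hvim : ∀ s, 0 < (v s).im := fun s => (hz _ (hB1 _ (hpB s))).1
  have hτ'' : ∀ i, τ i = ((A i : ℂ) * v (κ i) + B' i) / (C' i * v (κ i) + D' i) := fun i => by
    rw [hv]
    simp only [hpκ]
    exact hτ' i
  have hτim : ∀ i, 0 < (τ i).im := fun i => by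
    rw [hτ'' i]
    exact im_pos (hdet i) (hvim (κ i))
  let qq : Fin n → MvPolynomial (Fin T.card) L := fun i => MvPolynomial.C (⟨a i, haL i⟩ : L) *
    (lin1 κ A B' C' D' (fun i => (⟨o i, (hoL i).1⟩ : L)) i *
      ∏ l ∈ Finset.univ.erase i, lin1 κ A B' C' D' (fun i => (⟨conj (o i), (hoL i).2⟩ : L)) l)
  let P₀ : MvPolynomial (Fin q ⊕ Fin T.card) L := ∑ i, MvPolynomial.X (Sum.inl (b i)) * MvPolynomial.rename Sum.inr (qq i)
  let P : MvPolynomial (Fin q ⊕ (ℕ × Fin 3)) L := MvPolynomial.rename (Sum.map id fun s => (p s, (0 : Fin 3))) P₀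
  have hev : ∀ y : ℕ → Fin 3 → ℂ, MvPolynomial.aeval (Sum.elim w fun v : ℕ × Fin 3 => y v.1 v.2) P =
      ∑ i, a i * w (b i) * (((A i : ℂ) * y (p (κ i)) 0 + B' i - o i * (C' i * y (p (κ i)) 0 + D' i)) *
        ∏ l ∈ Finset.univ.erase i, ((A l : ℂ) * y (p (κ l)) 0 + B' l - conj (o l) * (C' l * y (p (κ l)) 0 + D' l))) := by
    intro y
    have hlin : ∀ (o' : Fin n → L) i, MvPolynomial.aeval (fun s : Fin T.card => y (p s) 0) (lin1 κ A B' C' D' o' i) =
        (A i : ℂ) * y (p (κ i)) 0 + B' i - (o' i : ℂ) * (C' i * y (p (κ i)) 0 + D' i) := by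
      intro o' i
      unfold lin1
      have hq : ∀ r : ℚ, algebraMap L ℂ (algebraMap ℚ L r) = (r : ℂ) := fun r => by simp
      simp only [map_sub, map_add, map_mul, MvPolynomial.aeval_C, MvPolynomial.aeval_X, hq]
      rfl
    show MvPolynomial.aeval (Sum.elim w fun v : ℕ × Fin 3 => y v.1 v.2)
      (MvPolynomial.rename (Sum.map id fun s => (p s, (0 : Fin 3))) (∑ i, MvPolynomial.X (Sum.inl (b i)) *
        MvPolynomial.rename Sum.inr (qq i))) = _
    rw [MvPolynomial.aeval_rename, map_sum]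
    refine Finset.sum_congr rfl fun i _ => ?_
    rw [map_mul, MvPolynomial.aeval_X, MvPolynomial.aeval_rename]
    have h1 : ((Sum.elim w fun v : ℕ × Fin 3 => y v.1 v.2) ∘ Sum.map id fun s => (p s, (0 : Fin 3))) ∘ Sum.inr =
        fun s : Fin T.card => y (p s) 0 := by
      funext s
      simp
    rw [h1]
    show (Sum.elim w (fun v : ℕ × Fin 3 => y v.1 v.2) ∘ Sum.map id fun s => (p s, (0 : Fin 3))) (Sum.inl (b i)) *
      MvPolynomial.aeval (fun s : Fin T.card => y (p s) 0) (MvPolynomial.C (⟨a i, haL i⟩ : L) *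
    (lin1 κ A B' C' D' (fun i => (⟨o i, (hoL i).1⟩ : L)) i *
      ∏ l ∈ Finset.univ.erase i, lin1 κ A B' C' D' (fun i => (⟨conj (o i), (hoL i).2⟩ : L)) l)) = _
    rw [map_mul, map_mul, map_prod, MvPolynomial.aeval_C]
    simp only [hlin, Function.comp_apply, Sum.map_inl, id_eq, Sum.elim_inl]
    show w (b i) * (a i * _) = _
    ring
  have hP0 : MvPolynomial.aeval (Sum.elim w fun v : ℕ × Fin 3 => Pool.Agent.Y120.J.jt (z v.1) v.2) P = 0 := by
    rw [hev fun n => Pool.Agent.Y120.J.jt (z n)]
    simp only [jt_zero]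
    have h0 := eval_zero (c := fun i => w (b i)) ho hdet hvim hτ'' hτim hza
    simp only [hv] at h0
    exact h0
  have hPd : P.totalDegree ≤ d * 2 ^ d + d + 1 := by
    refine (MvPolynomial.totalDegree_rename_le _ _).trans ?_
    refine MvPolynomial.totalDegree_finsetSum_le fun i _ => ?_
    refine (MvPolynomial.totalDegree_mul _ _).trans ?_
    rw [MvPolynomial.totalDegree_X]
    have h1 : (MvPolynomial.rename (Sum.inr : Fin T.card → Fin q ⊕ Fin T.card) (qq i)).totalDegree ≤ n := by
      refine (MvPolynomial.totalDegree_rename_le _ _).trans ?_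
      refine (MvPolynomial.totalDegree_mul _ _).trans ?_
      rw [MvPolynomial.totalDegree_C, zero_add]
      refine (MvPolynomial.totalDegree_mul _ _).trans ?_
      refine (Nat.add_le_add (lin1_deg _ _ _ _ _ _ _) ((MvPolynomial.totalDegree_finsetProd _ _).trans
        (Finset.sum_le_card_nsmul _ _ 1 fun l _ => lin1_deg _ _ _ _ _ _ _))).trans ?_
      rw [Finset.card_erase_of_mem (Finset.mem_univ i), Finset.card_univ, Fintype.card_fin]
      simp only [smul_eq_mul, mul_one]
      have := i.2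
      omega
    omega
  have hLd : finrank ℚ L ≤ d * 2 ^ d + d + 1 := by
    refine hL2.trans ?_
    have h1 : finrank ℚ K * 2 ^ n ≤ d * 2 ^ d :=
      Nat.mul_le_mul hKd (Nat.pow_le_pow_right (by norm_num) hn)
    omega
  have hall := hB3 L hL1 hLd P hPd (fun v hv => by
    obtain ⟨x, hx, h3⟩ := Finset.mem_image.1 (MvPolynomial.vars_rename _ P₀ hv)
    rcases x with x | s
    · exact absurd h3 Sum.inl_ne_inr
    · have h4 : (p s, (0 : Fin 3)) = v := Sum.inr.inj h3
      rw [← h4]
      exact hpB s) hP0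
  apply hau
  refine Pool.Agent.N207.HY.key κ A B' C' D' hdet o (fun i => w (b i)) a (fun i => (ho i).1) v hvim τ hτ'' (fun x => ?_) u
    hu.1 (fun i j hij => hu.2 i j hij)
  obtain ⟨y, hy⟩ : ∃ y : ℕ → Fin 3 → ℂ, ∀ s, y (p s) 0 = x s :=
    ⟨fun n _ => Function.extend p x 0 n, fun s => hpinj.extend_apply x 0 s⟩
  have h1 := hall y
  rw [hev y] at h1
  simp only [hy] at h1
  exact h1

end Pool.Agent.Results.MP_1e27bd_ag.InfiniteSetsOfPrimes
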