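import Pool.Agent.Run7.h469.TR.P1e27bd
import Pool.Agent.Run7.h469.Vm

/-!
# The hyperbolic analytic subspace conjecture for products of modular curves: products of linear forms in almost all integer vectors, and in expansions of real vectors

As in the starting results `ModularProducts` and `AlmostAllInvariants` of this problem let `S = Y(1)^n`, let `o` be a special point
of `ℍ^n`, and consider the points `z` of `ℍ^n` whose coordinates are isogenous (by arbitrary isogenies) to points with integral
invariants `t_1, …, t_k`. A tuple `t` is bad for a number field `K` if a subspace `V`, rational over `K` for the arithmetic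
structure, contains one of these points `z` but does not contain the space `T`, the tangent space of the Shimura subvariety
through `[o]` and `[z]` given by the isogenies. If `t` is not bad the answer to Q1, Q2 is yes with `V' = T` for all these `z`, `V`.

Let `k, h ≥ 1` (for `h = 1` there are no products, only linear forms). We prove that for all integer vectors `x` in `[-X, X]^D`
with at most `C' Q^(k h (D + 2)) X^(D - c)` exceptions, `C'` depending on `D`, NO `k`-tuple `t` of products of `h`
linear forms, `t_i = ∏_(j ≤ h) y_(i,j)` with `y = M x + b`, `M` an integral matrix of rank `k h`, `b` an integral vector, the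
entries of `M` and `b` at most `Q`, all `y_(i,j) ≠ 0`, is bad. Here `Q` can be a small power of `X`. We prove a similar result
for the integer vectors near `N_n α`, `N_n` a lacunary sequence (for instance the truncations of the expansions in base `g`,
`N_n = g^n`), for all real vectors `α` outside a set of dimension less than `D`, and `M`, `b` with entries up to a power of `N_n`.
The number `c` depends only on `n`, `k` and a bound for the degree of `K`.

The starting theorem `AlmostAllInvariants` of this problem bounds the number of bad tuples up to `U` by `C U^(k - c)`. The products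
of `h` integers form a set of density zero, and so the result for `h ≥ 2` does not follow from this number alone: the divisor bound
shows that few vectors `y` have a bad tuple of products, and for each of the possible `M`, `b` the map `x ↦ M x + b` has small
fibres.
-/

set_option autoImplicit false

namespace Pool.Agent.Results.MP_1e27bd_ag.ProductsOfLinearForms

open Finset MeasureTheory
open Run7.h469.Vk (Hits Lacunary Generic Avoids)
open Run7.h469.Vm (ProductIn)
open Run7.h469.TR.P1e27bd (few)
open Pool.Agent.Results.MP_1e27bd_ag.ModularProducts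
open Pool.Agent.Results.MP_1e27bd_ag.AlmostAllInvariants (Exceptional)

/-- The `k`-tuples of nonzero integers which are bad: there are a point `τ` of `ℍ^n` each coordinate of which is isogenous to one of
some points `v_s` with the invariants `t_s`, and a subspace `V`, rational over `K` for the arithmetic structure, which contains
`point o τ` but not `Tangent o τ`. -/
def Bad {n : ℕ} (K : IntermediateField ℚ ℂ) (o c : Fin n → ℂ) (k : ℕ) : Set (Fin k → ℤ) :=
  {t | (∀ i, t i ≠ 0) ∧ Exceptional (K : Set ℂ) o c t}

/-- **The hyperbolic analytic subspace conjecture for products of linear forms.** (0) The space `Tangent o τ` contains `point o τ`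
and is rational for both structures. Let `k ≥ 1`. For all `n` and `d` there is `γ > 0` and for all `h ≥ 1` there is `C` such that
for all special points `o` of `ℍ^n`, all `c` and all number fields `K` of degree at most `d`: (1) for all `D` and `X, Q ≥ 1`, for
all but `C ((D + 1)^(k h) 3^((k h + 1) (D + 1))) Q^(k h (D + 2)) X^(D - γ)` of the integer vectors `x` in `[-X, X]^D` no tuple of
the products `∏_(j ≤ h) y_(i,j)` of nonzero coordinates of a vector `y = M x + b`, `M` integral of rank `k h`, with entries of `M`
and `b` at most `Q`, is bad; (2) for lacunary `N_i` and `η ≥ 0`, outside a set of `α` in `ℝ^D` of dimension at most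
`D - γ + k h (D + 2) η`, for all `A`, for all large `i` the same is true for the integer vectors `x` with `|x - N_i α| ≤ A` and
`M`, `b` with entries at most `A N_i^η`; (3) in particular it is true for almost all `α`, if `k h (D + 2) η < γ`. -/
theorem result (n k d : ℕ) (hk : 1 ≤ k) :
    (∀ o τ c : Fin n → ℂ, (∀ i, Special (o i)) → (∀ i, 0 < (τ i).im) → (∀ i, c i ≠ 0) → Compatible o c →
      point o τ ∈ Tangent o τ ∧ Rational Qbar c (Tangent o τ) ∧ Rational Qbar (fun _ => 1) (Tangent o τ)) ∧
    ∃ γ : ℝ, 0 < γ ∧ ∀ h : ℕ, 1 ≤ h → ∃ C : ℝ, ∀ o c : Fin n → ℂ, (∀ i, Special (o i)) →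
      ∀ K : IntermediateField ℚ ℂ, FiniteDimensional ℚ K → Module.finrank ℚ K ≤ d →
      (∀ D X Q : ℕ, 1 ≤ X → 1 ≤ Q →
        (({x : Fin D → ℤ | (∀ j, |x j| ≤ X) ∧ x ∈ Hits (ProductIn h (Bad K o c k)) D Q}.ncard : ℕ) : ℝ) ≤
          C * (((D : ℝ) + 1) ^ (k * h) * 3 ^ ((k * h + 1) * (D + 1))) * (Q : ℝ) ^ (k * h * (D + 2)) *
            (X : ℝ) ^ ((D : ℝ) - γ)) ∧
      (∀ D : ℕ, 1 ≤ D → ∀ N : ℕ → ℝ, Lacunary N → ∀ η : ℝ, 0 ≤ η →
        Generic ((D : ℝ) - γ + k * h * (D + 2) * η)
          (fun α : Fin D → ℝ => Avoids (ProductIn h (Bad K o c k)) N η α)) ∧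
      ∀ D : ℕ, 1 ≤ D → ∀ N : ℕ → ℝ, Lacunary N → ∀ η : ℝ, 0 ≤ η → k * h * (D + 2) * η < γ →
        ∀ᵐ α : Fin D → ℝ, Avoids (ProductIn h (Bad K o c k)) N η α := by
  refine ⟨(Pool.Agent.Results.MP_1e27bd_ag.AlmostAllInvariants.result n k d).1, ?_⟩
  obtain ⟨c, hc, hc1, C, hC, hf⟩ := few n k d hk
  refine ⟨c / 2, by linarith, fun h hh => ?_⟩
  have hh1 : (1 : ℝ) ≤ h := by exact_mod_cast hh
  obtain ⟨C', -, key⟩ := Run7.h469.Vm.products_of_forms (k := k) (b := h) hk hh hC (c := c) (c' := c / 2)
    (by linarith) (by linarith) (by nlinarith)
  exact ⟨C', fun o c' ho K hK hKd => key _ (hf o c' ho K hK hKd)⟩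

end Pool.Agent.Results.MP_1e27bd_ag.ProductsOfLinearForms
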